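import Mathlib
import Pool.Agent.W_02e251_h65.Defs
import Pool.Agent.W_02e251_h65.Exc

/-!
Harada's conjecture for blocks with a set of `k(B) - l(B)` characters which are proportional on
the `p`-regular elements.
-/

set_option autoImplicit false

open Pool.Agent.Har

namespace Pool.Agent.Results.MP_02e251_al.ExceptionalCharacters

theorem result {G : Type} [Group G] [Fintype G] {p : ℕ} (hp : p.Prime)
    (B X : Finset (G → ℂ)) (hB : IsBlock p B) (hXB : X ⊆ B) (hX : X.Nonempty)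
    -- the characters in `X` are proportional on the `p`-regular elements
    (hprop : ∀ χ ∈ X, ∀ ψ ∈ X, ∀ g : G, ¬ p ∣ orderOf g → ψ 1 * χ g = χ 1 * ψ g)
    -- `k(B) - l(B) ≤ |X|`
    (hdim : Module.finrank ℂ (regKer p B) ≤ X.card)
    -- a class function vanishing on the `p`-regular elements with integral coefficients `c`
    -- outside `X`
    (y : (G → ℂ) → ℂ) (hy : VanReg p (fun g => ∑ χ ∈ B, y χ * χ g))
    (c : (G → ℂ) → ℤ) (hc : ∀ χ ∈ B, χ ∉ X → y χ = (c χ : ℂ))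
    (hc₀ : ∃ ψ ∈ B, ψ ∉ X ∧ c ψ ≠ 0)
    (hsmall : ∃ ψ ∈ B, ψ ∉ X ∧ ∃ n : ℕ, ψ 1 = (n : ℂ) ∧ ∑ χ ∈ B \ X, c χ ^ 2 <
      (p : ℤ) ^ (padicValNat p (Fintype.card G) - padicValNat p n))
    (J : Finset (G → ℂ)) (hJ : J.Nonempty) (hJB : J ⊆ B)
    (hJS : VanSing p (fun g => ∑ χ ∈ J, χ 1 * χ g)) : J = B := by
  obtain ⟨ψ₀, hψ₀, hψ₀X, hc₀⟩ := hc₀
  obtain ⟨ψ₁, hψ₁, hψ₁X, n, hn, hs⟩ := hsmall
  have hdeg : ∀ χ : G → ℂ, ∃ n : ℕ, χ ∈ B → χ 1 = (n : ℂ) := by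
    intro χ
    by_cases hχ : χ ∈ B
    · obtain ⟨n, _, hn⟩ := (hB.isIrr hχ).degree
      exact ⟨n, fun _ => hn⟩
    · exact ⟨0, fun h => absurd h hχ⟩
  choose dg hdg using hdeg
  have hn' : dg ψ₁ = n := by
    have h1 := hdg ψ₁ hψ₁
    rw [hn] at h1
    exact_mod_cast h1.symm
  exact exc_main hp hB hXB hX hprop hdim y hy c hc ψ₀ hψ₀ hψ₀X hc₀ dg hdg ψ₁ hψ₁ hψ₁X
    (by rw [hn']; exact hs) J hJ hJB hJS

end Pool.Agent.Results.MP_02e251_al.ExceptionalCharacters
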