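import Mathlib
import Pool.Agent.W_02e251_h65.Defs
import Pool.Agent.W_02e251_h65.Main
import Pool.Agent.W_02e251_h65.CondA
import Pool.Agent.W_02e251_h65.CondF
import Pool.Agent.W_02e251_h65.CondH

/-!
Harada's conjecture for the blocks which are isometric (as in Broué's abelian defect group
conjecture) to a block with normal abelian defect group `D`, for inertial quotients `E` which are
abelian, or act freely on `D`, or have order at most the exponent of the homocyclic group `D`, or
more generally satisfy the condition `Cond`.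
-/

set_option autoImplicit false

open Pool.Agent.Har

namespace Pool.Agent.Results.MP_02e251_al.IsometricBlocks

theorem result {G : Type} [Group G] [Fintype G] {p : ℕ} (hp : p.Prime)
    -- the abelian `p`-group `D` and the `p'`-group `E` acting faithfully on `D`
    {D E L : Type} [CommGroup D] [Group E] [Group L] [Fintype D] [Fintype E] [Fintype L]
    (hD : IsPGroup p D) (φ : E →* MulAut D) (hφ : Function.Injective φ)
    -- the central `p'`-extension `L` of `E` and the linear character `θ` of its kernel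
    (hL : Nat.Coprime (Fintype.card L) p) (π : L →* E) (hπ : Function.Surjective π)
    (hK : π.ker ≤ Subgroup.center L) (θ : π.ker →* ℂˣ)
    -- the condition on the action
    (hE : Cond φ ∨ (∀ x y : E, x * y = y * x) ∨
      (∀ x : E, x ≠ 1 → ∀ d : D, φ x d = d → d = 1) ∨
      (∃ a : ℕ, (∀ d : D, d ^ p ^ (a + 1) = 1) ∧
        (∀ d : D, d ^ p ^ a = 1 → ∃ e : D, e ^ p = d) ∧ Nat.card E ≤ p ^ (a + 1)))
    -- the block `B`, and the signed bijection with the characters of `D ⋊ L` over `θ`
    (B : Finset (G → ℂ)) (hB : IsBlock p B) (I : (G → ℂ) → (D ⋊[φ.comp π] L → ℂ))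
    (ε : (G → ℂ) → ℤˣ)
    (hI : Set.BijOn I (B : Set (G → ℂ)) {ψ | IsIrr ψ ∧
      ∀ h : D ⋊[φ.comp π] L, ∀ z : π.ker,
        ψ (h * SemidirectProduct.inr (z : L)) = ((θ z : ℂˣ) : ℂ) * ψ h})
    (hsep : ∀ x : (G → ℂ) → ℂ, VanSing p (fun g => ∑ χ ∈ B, x χ * χ g) ↔
      VanSing p (fun h => ∑ χ ∈ B, x χ * ((ε χ : ℤ) : ℂ) * I χ h))
    -- `|D|` is the order of the defect groups
    (hdef : ∃ χ ∈ B, ∃ n : ℕ, χ 1 = (n : ℂ) ∧
      padicValNat p (n * Fintype.card D) ≤ padicValNat p (Fintype.card G))
    -- Harada's conjecture for `B`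
    (J : Finset (G → ℂ)) (hJ : J.Nonempty) (hJB : J ⊆ B)
    (hJS : VanSing p (fun g => ∑ χ ∈ J, χ 1 * χ g)) : J = B := by
  have hEp : Nat.Coprime (Nat.card E) p := by
    have h1 : Nat.card E ∣ Nat.card L := Subgroup.card_dvd_of_surjective π hπ
    rw [Nat.card_eq_fintype_card (α := L)] at h1
    exact Nat.Coprime.coprime_dvd_left h1 hL
  have hcond : Cond φ := by
    rcases hE with h | h | h | ⟨a, h1, h2, h3⟩
    · exact h
    · letI : CommGroup E := { ‹Group E› with mul_comm := h }
      exact cond_comm hp hD hEp φ hφ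
    · exact cond_free φ hφ h
    · exact cond_homocyclic hp hEp φ hφ a h1 h2 h3
  exact main φ hφ π hK θ hp hD hL hcond B hB I ε hI hsep hdef J hJ hJB hJS

end Pool.Agent.Results.MP_02e251_al.IsometricBlocks
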