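import Mathlib
import Pool.Agent.W_02e251_h65.Defs
import Pool.Agent.W_02e251_h65.Tame

/-!
Harada's conjecture for the `2`-blocks whose character degrees are as those of the blocks with
dihedral, semidihedral or quaternion defect groups of order at least `8`.
-/

set_option autoImplicit false

open Pool.Agent.Har

namespace Pool.Agent.Results.MP_02e251_al.MaximalClass

theorem result {G : Type} [Group G] [Fintype G]
    (B B0 B1 B2 : Finset (G → ℂ)) (hB : IsBlock 2 B)
    -- the degrees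
    (dg : (G → ℂ) → ℕ) (hdg : ∀ χ ∈ B, χ 1 = (dg χ : ℂ))
    -- `2 ^ d` is the order of the defect groups
    (e d : ℕ) (hd : 3 ≤ d) (hG : padicValNat 2 (Fintype.card G) = e + d)
    -- four characters of height zero, less than `2 ^ (d - 2)` characters of height one which have
    -- the same degree, and at most two characters of height `d - 2`
    (hBu : ∀ χ : G → ℂ, χ ∈ B ↔ χ ∈ B0 ∨ χ ∈ B1 ∨ χ ∈ B2)
    (h0 : ∀ χ ∈ B0, padicValNat 2 (dg χ) = e) (h0c : B0.card = 4)
    (h1 : ∀ χ ∈ B1, padicValNat 2 (dg χ) = e + 1) (h1e : ∀ χ ∈ B1, ∀ ψ ∈ B1, dg χ = dg ψ)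
    (h1c : B1.card < 2 ^ (d - 2))
    (h2 : ∀ χ ∈ B2, padicValNat 2 (dg χ) = e + (d - 2)) (h2c : B2.card ≤ 2)
    (J : Finset (G → ℂ)) (hJ : J.Nonempty) (hJB : J ⊆ B)
    (hJS : VanSing 2 (fun g => ∑ χ ∈ J, χ 1 * χ g)) : J = B :=
  tame_main hB dg hdg e d hd hG hBu h0 h0c h1 h1e h1c h2 h2c J hJ hJB hJS

end Pool.Agent.Results.MP_02e251_al.MaximalClass
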