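import Mathlib
import Pool.Agent.W_02e251_h65.Defs
import Pool.Agent.W_02e251_h65.Two
import Pool.Agent.W_02e251_h65.Cone

/-!
Harada's conjecture for the blocks for which the cone spanned by the restrictions of the characters
to the `p`-regular elements is simplicial (for instance if all irreducible Brauer characters of the
block lift to characteristic zero), or at most two-dimensional (`l(B) ≤ 2`), or connected by its
faces.
-/

set_option autoImplicit false

open Pool.Agent.Har

namespace Pool.Agent.Results.MP_02e251_al.RestrictionCone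

theorem result {G : Type} [Group G] [Fintype G] {p : ℕ} (hp : p.Prime)
    (B : Finset (G → ℂ)) (hB : IsBlock p B)
    (hcone : SimplicialCone p B ∨
      Module.finrank ℂ (Submodule.span ℂ {f : G → ℂ | ∃ χ ∈ B, f = pres p χ}) ≤ 2 ∨
      ∀ χ ∈ B, ∀ ψ ∈ B, Relation.EqvGen (PosRel p B) χ ψ)
    (J : Finset (G → ℂ)) (hJ : J.Nonempty) (hJB : J ⊆ B)
    (hJS : VanSing p (fun g => ∑ χ ∈ J, χ 1 * χ g)) : J = B := by
  rcases hcone with h | h | h
  · exact simplicial_main hp hB h J hJ hJB hJS
  · exact two_main hp B hB h J hJ hJB hJS
  · exact posconn_main hp hB h J hJ hJB hJS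

end Pool.Agent.Results.MP_02e251_al.RestrictionCone
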